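import Pool.Agent.Lib.MP_abd978_an.Assembly
import Pool.Agent.Lib.MP_abd978_an.H1.Cacc
import Pool.Agent.Lib.MP_abd978_an.H10.Cut
import Pool.Agent.Lib.MP_abd978_an.H11.Mos1
import Pool.Agent.Lib.MP_abd978_an.H11.Mos2
import Pool.Agent.Lib.MP_abd978_an.H34.Norm
import Pool.Agent.Lib.MP_abd978_an.H36.Halg
import Pool.Agent.Lib.MP_abd978_an.H36.Sob
import Pool.Agent.Lib.MP_abd978_an.H36.Topc
import Pool.Agent.Lib.MP_abd978_an.H42.Cont
import Pool.Agent.Lib.MP_abd978_an.H42.Harn
import Pool.Agent.Lib.MP_abd978_an.H49.Potx
import Pool.Agent.Lib.MP_abd978_an.H49.Rep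
import Pool.Agent.Lib.MP_abd978_an.H50.Pnz
import Pool.Agent.Lib.MP_abd978_an.H50.Pnc
import Pool.Agent.Lib.MP_abd978_an.H55.Poix
import Pool.Agent.Lib.MP_abd978_an.H55.Dens
import Pool.Agent.Lib.MP_abd978_an.H57.Tgt
import Pool.Agent.Lib.MP_abd978_an.H58.Chain
import Pool.Agent.Lib.MP_abd978_an.H58.Bchain
import Pool.Agent.Lib.MP_abd978_an.H61.Chn
import Pool.Agent.Lib.MP_abd978_an.H65.Opl
import Pool.Agent.Lib.MP_abd978_an.H65.Dir
import Pool.Agent.Lib.MP_abd978_an.H7.PMinMax
import Pool.Agent.Lib.MP_abd978_an.H72.Osc
import Pool.Agent.Lib.MP_abd978_an.H86.Intg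
import Pool.Agent.Lib.MP_abd978_an.H86.Cacp
import Pool.Agent.Lib.MP_abd978_an.H94.Main
import Pool.Agent.Lib.MP_abd978_an.H98.Alt
import Pool.Agent.Lib.MP_abd978_an.H98.Uci
import Pool.Agent.Lib.MP_abd978_an.H98.Nest
import Pool.Agent.Lib.MP_abd978_an.H98.Minty

/-!
# Project ABD: all modules together
-/

set_option autoImplicit false

namespace Pool.Agent.Lib.MP_abd978_an

theorem all : FinalStatement := by
  have hcut : CutStatement := H10.cut
  have hchain : ChainStatement := H58.chain
  have hbchain : BchainStatement := H58.bchain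
  have hintg : IntgStatement := H86.intg
  have hpair : PairStatement := H86.pair
  have hsob1 : Sob1Statement := H36.sob1
  have hsob2 : Sob2Statement := H36.sob2
  have hpoix : PoixStatement := H55.poix hchain hcut
  have hweak : WeakStatement := weak hchain hpair
  have hcacc : CaccStatement := H1.cacc hweak hintg
  have hcacp : CacpStatement := H86.cacp hcacc
  have hmos1 : Mos1Statement := H11.mos1 hcut hchain hsob2 hcacp
  have hmos2 : Mos2Statement := H11.mos2 hmos1
  have hdens : DensStatement := H55.dens hcacc hcut hpoix hmos2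
  have hosc : OscStatement := H72.osc hdens
  have hrep : RepStatement := H49.rep_statement hosc
  have hhalg : HalgStatement := H36.halg
  have hdensc : DenscStatement := H42.densc hdens
  have hmosc : MoscStatement := H42.mosc hmos2
  have hoscc : OsccStatement := H42.oscc hosc
  have hharn : HarnStatement := H42.harn hdensc hmosc
  have hhch : HchStatement := H72.hch hharn
  have heqc : EqcStatement := H72.eqc hoscc
  have hchn : ChnStatement := H61.chn
  have hsph : SphStatement := H61.sph hchn hharn
  have hann : AnnStatement := H61.ann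
  have halt : AltStatement := H98.alt
  have huci : UciStatement := H98.uci
  have hnest : NestStatement := H98.nest huci
  have hminty : MintyStatement := H98.minty halt
  have hopl : OplStatement := H65.opl hintg
  have hdir : DirStatement := H65.dir hintg hsob1 hnest hminty hopl
  have hpotx : PotxStatement := H49.potx hdir hbchain hpair hsob1 hintg hrep
  have hpmin : PminStatement := H7.pmin hcut hbchain hpair hsob1 hintg
  have hpmax : PmaxStatement := H7.pmax hcut hbchain hpair hsob1 hintg
  have hpnz : PnzStatement := H50.pnz hcut hintg hpair hsob1 hcacc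
  have hpnc : PncStatement := H50.pnc hcut hbchain hintg hpair hsob1 hcacc
  have hnorm : NormStatement := H34.norm
  have htgt : TgtStatement := H57.tgt hhalg hsph pharm hpmin hpmax hpnz
  have hmain : MainStatement := H94.main hhalg hharn hhch heqc hann hpotx htgt hpnc
  exact final hmain hnorm H36.topc

end Pool.Agent.Lib.MP_abd978_an
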