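import Pool.Agent.Lib.MP_abd978_an.Weak

/-!
# Project ABD: assembly
-/

set_option autoImplicit false

open MeasureTheory Metric Set Filter Topology ContDiff
open scoped Gradient RealInnerProductSpace

namespace Pool.Agent.Lib.MP_abd978_an

/-- the final statement -/
def FinalStatement : Prop := ∀ (n : ℕ) (p : ℝ) (Ω : Set (E n)) (f : E n → E n), 2 ≤ n → 1 < p →
  IsOpen Ω → IsClassMorphism p Ω f →
  (∀ x₀ ∈ Ω, (∀ U ∈ 𝓝 x₀, f '' (U ∩ Ω) ∈ 𝓝 (f x₀)) ∨ ∀ᶠ x in 𝓝 x₀, f x = f x₀) ∧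
  (∀ G : Set (E n), IsOpen G → IsPreconnected G → G ⊆ Ω →
    IsOpen (f '' G) ∨ (f '' G).Subsingleton) ∧
  ((∀ y, interior (Ω ∩ f ⁻¹' {y}) = ∅) → ∀ U : Set (E n), IsOpen U → U ⊆ Ω → IsOpen (f '' U))

theorem final (h1 : MainStatement) (h2 : NormStatement) (h3 : TopcStatement) :
    FinalStatement := by
  intro n p Ω f hn hp hΩ hf
  obtain ⟨w', A', w, A, hA', hA, hc, hm⟩ := hf
  obtain ⟨a', α', β', ho', hh'⟩ := h2 n p w' A' hp hA'
  obtain ⟨a, α, β, ho, hh⟩ := h2 n p w A hp hA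
  have key := h1 n p (wm w) (wm w') a a' α β α' β' Ω f hn ho ho' hΩ hc
    fun V u hV hu => (hh' _ _).1 (hm V u hV ((hh _ _).2 hu))
  exact ⟨key, h3 n Ω f hΩ hc key⟩

end Pool.Agent.Lib.MP_abd978_an
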