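import Pool.Agent.Lib.MP_abd978_an.Defs

/-!
# Project ABD: internal notions (everything is written with a measure `μ` and a normalised
operator `a`, `𝒜(x, ξ) = w(x) a(x, ξ)`), elementary lemmas
-/

set_option autoImplicit false

open MeasureTheory Metric Set Filter Topology ContDiff
open scoped Gradient RealInnerProductSpace

namespace Pool.Agent.Lib.MP_abd978_an

variable {n : ℕ}

/-! ### Internal definitions -/

/-- `φ` is a smooth function with compact support in `D` -/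
def Test (D : Set (E n)) (φ : E n → ℝ) : Prop :=
  ContDiff ℝ ∞ φ ∧ HasCompactSupport φ ∧ tsupport φ ⊆ D

/-- `(u, v)` is a limit of `(ψ, ∇ψ)`, `ψ` smooth with compact support in `D`, in `L^p(μ)` -/
def H0 (μ : Measure (E n)) (p : ℝ) (D : Set (E n)) (u : E n → ℝ) (v : E n → E n) : Prop :=
  MemLp u (ENNReal.ofReal p) μ ∧ MemLp v (ENNReal.ofReal p) μ ∧
  ∃ ψ : ℕ → E n → ℝ, (∀ i, Test D (ψ i)) ∧
    Tendsto (fun i => eLpNorm (fun x => ψ i x - u x) (ENNReal.ofReal p) μ) atTop (𝓝 0) ∧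
    Tendsto (fun i => eLpNorm (fun x => ∇ (ψ i) x - v x) (ENNReal.ofReal p) μ) atTop (𝓝 0)

/-- the weak equation `div a(x, v) = 0` in `D` -/
def Eqn (μ : Measure (E n)) (a : E n → E n → E n) (D : Set (E n)) (v : E n → E n) : Prop :=
  ∀ φ : E n → ℝ, Test D φ → ∫ x, ⟪a x (v x), ∇ φ x⟫ ∂μ = 0

/-- `u ∈ H^{1,p}_loc(U; μ)` with gradient `v` -/
def LocSob (μ : Measure (E n)) (p : ℝ) (U : Set (E n)) (u : E n → ℝ) (v : E n → E n) : Prop :=
  ∀ D, IsOpen D → IsCompact (closure D) → closure D ⊆ U → IsSob μ p D u v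

/-- harmonic functions, normalised form -/
def Harm (μ : Measure (E n)) (p : ℝ) (a : E n → E n → E n) (U : Set (E n)) (u : E n → ℝ) : Prop :=
  ContinuousOn u U ∧ ∃ v : E n → E n, LocSob μ p U u v ∧ Eqn μ a U v

/-- the properties of the measure -/
structure Geo (p : ℝ) (μ : Measure (E n)) : Prop where
  hp : 1 < p
  lf : IsLocallyFiniteMeasure μ
  pos : ∀ (z : E n) (r : ℝ), 0 < r → 0 < μ.real (ball z r)
  dbl : ∃ C : ℝ, 1 ≤ C ∧ ∀ (z : E n) (r : ℝ), 0 < r → μ.real (ball z (2 * r)) ≤ C * μ.real (ball z r)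
  sob : ∃ κ : ℝ, 1 < κ ∧ ∃ C : ℝ, 0 < C ∧ ∀ (z : E n) (r : ℝ), 0 < r → ∀ φ : E n → ℝ,
    Test (ball z r) φ →
    (⨍ y in ball z r, |φ y| ^ (κ * p) ∂μ) ^ (1 / (κ * p)) ≤
      C * r * (⨍ y in ball z r, ‖∇ φ y‖ ^ p ∂μ) ^ (1 / p)
  poi : ∃ C : ℝ, 0 < C ∧ ∀ (z : E n) (r : ℝ), 0 < r → ∀ φ : E n → ℝ, ContDiff ℝ ∞ φ →
    ⨍ y in ball z r, |φ y - ⨍ x in ball z r, φ x ∂μ| ∂μ ≤
      C * r * (⨍ y in ball z r, ‖∇ φ y‖ ^ p ∂μ) ^ (1 / p)

/-- the properties of the measure and of the operator -/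
structure Op (p : ℝ) (μ : Measure (E n)) (a : E n → E n → E n) (α β : ℝ) : Prop extends
    Geo p μ where
  hα : 0 < α
  hαβ : α ≤ β
  meas : Measurable fun q : E n × E n => a q.1 q.2
  cont : ∀ x, Continuous (a x)
  ell : ∀ x ξ, α * ‖ξ‖ ^ p ≤ ⟪a x ξ, ξ⟫
  bdd : ∀ x ξ, ‖a x ξ‖ ≤ β * ‖ξ‖ ^ (p - 1)
  mono : ∀ x ξ η, ξ ≠ η → 0 < ⟪a x ξ - a x η, ξ - η⟫
  hom : ∀ x (l : ℝ) ξ, 0 < l → a x (l • ξ) = l ^ (p - 1) • a x ξ
  neg : ∀ x ξ, a x (-ξ) = -a x ξ

/-- The potential `v` of the closed ball `closedBall y' κ` in the ball `ball y R`. -/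
def IsPot (μ : Measure (E n)) (p : ℝ) (a : E n → E n → E n) (y : E n) (R : ℝ) (y' : E n) (κ : ℝ)
    (v : E n → ℝ) : Prop :=
  0 < κ ∧ closedBall y' κ ⊆ ball y R ∧ (∀ x, v x ∈ Icc (0 : ℝ) 1) ∧
  ContinuousOn v (ball y R \ closedBall y' κ) ∧
  ∃ (g : E n → ℝ) (V : E n → E n), Test (ball y R) g ∧ (∀ x, g x ∈ Icc (0 : ℝ) 1) ∧
    (∃ ε > 0, ∀ x ∈ closedBall y' (κ + ε), g x = 1) ∧
    H0 μ p (ball y R \ closedBall y' κ) (fun x => v x - g x) (fun x => V x - ∇ g x) ∧
    Eqn μ a (ball y R \ closedBall y' κ) V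

/-! ### Elementary lemmas -/

theorem Test.mono {D D' : Set (E n)} {φ : E n → ℝ} (h : Test D φ) (hD : D ⊆ D') : Test D' φ :=
  ⟨h.1, h.2.1, h.2.2.trans hD⟩

theorem H0.mono {μ : Measure (E n)} {p : ℝ} {D D' : Set (E n)} {u : E n → ℝ} {v : E n → E n}
    (h : H0 μ p D u v) (hD : D ⊆ D') : H0 μ p D' u v := by
  obtain ⟨h1, h2, ψ, h3, h4⟩ := h
  exact ⟨h1, h2, ψ, fun i => (h3 i).mono hD, h4⟩

theorem IsSob.mono {μ : Measure (E n)} {p : ℝ} {D D' : Set (E n)} {u : E n → ℝ} {v : E n → E n}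
    (h : IsSob μ p D u v) (hD : D' ⊆ D) : IsSob μ p D' u v := by
  obtain ⟨h1, h2, φ, h3, h4, h5⟩ := h
  have hle : μ.restrict D' ≤ μ.restrict D := Measure.restrict_mono hD le_rfl
  refine ⟨h1.mono_measure hle, h2.mono_measure hle, φ, fun i => (h3 i).mono hD, ?_, ?_⟩
  · exact tendsto_of_tendsto_of_tendsto_of_le_of_le tendsto_const_nhds h4 (fun _ => bot_le)
      fun i => eLpNorm_mono_measure _ hle
  · exact tendsto_of_tendsto_of_tendsto_of_le_of_le tendsto_const_nhds h5 (fun _ => bot_le)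
      fun i => eLpNorm_mono_measure _ hle

theorem Eqn.mono {μ : Measure (E n)} {a : E n → E n → E n} {D D' : Set (E n)} {v : E n → E n}
    (h : Eqn μ a D v) (hD : D' ⊆ D) : Eqn μ a D' v := fun φ hφ => h φ (hφ.mono hD)

theorem LocSob.mono {μ : Measure (E n)} {p : ℝ} {D D' : Set (E n)} {u : E n → ℝ}
    {v : E n → E n} (h : LocSob μ p D u v) (hD : D' ⊆ D) : LocSob μ p D' u v :=
  fun G h1 h2 h3 => h G h1 h2 (h3.trans hD)

theorem Harm.mono {μ : Measure (E n)} {p : ℝ} {a : E n → E n → E n} {U V : Set (E n)}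
    {u : E n → ℝ} (h : Harm μ p a U u) (hV : V ⊆ U) : Harm μ p a V u := by
  obtain ⟨h1, v, h2, h3⟩ := h
  exact ⟨h1.mono hV, v, h2.mono hV, h3.mono hV⟩

theorem grad_eq (f : E n → ℝ) (x : E n) :
    ∇ f x = (InnerProductSpace.toDual ℝ (E n)).symm (fderiv ℝ f x) := rfl

theorem norm_grad (f : E n → ℝ) (x : E n) : ‖∇ f x‖ = ‖fderiv ℝ f x‖ := by
  rw [grad_eq]
  exact (InnerProductSpace.toDual ℝ (E n)).symm.norm_map _

theorem grad_of_hasFDerivAt {f : E n → ℝ} {x : E n} {L : E n →L[ℝ] ℝ} (h : HasFDerivAt f L x) :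
    ∇ f x = (InnerProductSpace.toDual ℝ (E n)).symm L := by
  rw [grad_eq, h.fderiv]

theorem grad_add {f g : E n → ℝ} {x : E n} (hf : DifferentiableAt ℝ f x)
    (hg : DifferentiableAt ℝ g x) : ∇ (fun y => f y + g y) x = ∇ f x + ∇ g x := by
  have h : HasFDerivAt (fun y => f y + g y) (fderiv ℝ f x + fderiv ℝ g x) x :=
    hf.hasFDerivAt.add hg.hasFDerivAt
  rw [grad_of_hasFDerivAt h, map_add]
  rfl

theorem grad_sub {f g : E n → ℝ} {x : E n} (hf : DifferentiableAt ℝ f x)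
    (hg : DifferentiableAt ℝ g x) : ∇ (fun y => f y - g y) x = ∇ f x - ∇ g x := by
  have h : HasFDerivAt (fun y => f y - g y) (fderiv ℝ f x - fderiv ℝ g x) x :=
    hf.hasFDerivAt.sub hg.hasFDerivAt
  rw [grad_of_hasFDerivAt h, map_sub]
  rfl

theorem grad_mul {f g : E n → ℝ} {x : E n} (hf : DifferentiableAt ℝ f x)
    (hg : DifferentiableAt ℝ g x) :
    ∇ (fun y => f y * g y) x = f x • ∇ g x + g x • ∇ f x := by
  have h : HasFDerivAt (fun y => f y * g y) (f x • fderiv ℝ g x + g x • fderiv ℝ f x) x :=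
    hf.hasFDerivAt.mul hg.hasFDerivAt
  rw [grad_of_hasFDerivAt h, map_add, map_smulₛₗ, map_smulₛₗ]
  rfl

theorem grad_comp {f : E n → ℝ} {θ : ℝ → ℝ} {x : E n} (hf : DifferentiableAt ℝ f x)
    (hθ : DifferentiableAt ℝ θ (f x)) :
    ∇ (fun y => θ (f y)) x = deriv θ (f x) • ∇ f x := by
  have h : HasFDerivAt (fun y => θ (f y)) (deriv θ (f x) • fderiv ℝ f x) x :=
    hθ.hasDerivAt.comp_hasFDerivAt x hf.hasFDerivAt
  rw [grad_of_hasFDerivAt h, map_smulₛₗ]
  rfl

theorem continuous_grad {φ : E n → ℝ} (h : ContDiff ℝ ∞ φ) : Continuous fun x => ∇ φ x := by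
  have h1 : Continuous (fderiv ℝ φ) := h.continuous_fderiv (by simp)
  exact (InnerProductSpace.toDual ℝ (E n)).symm.continuous.comp h1

theorem grad_eq_zero_of_notMem {φ : E n → ℝ} {x : E n} (h : x ∉ tsupport φ) : ∇ φ x = 0 := by
  rw [grad_eq]
  have h1 : fderiv ℝ φ x = 0 := by
    by_contra hcon
    exact h (support_fderiv_subset ℝ (by simpa using hcon))
  rw [h1, map_zero]

theorem hasCompactSupport_grad {D : Set (E n)} {φ : E n → ℝ} (h : Test D φ) :
    HasCompactSupport fun x => ∇ φ x := by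
  refine HasCompactSupport.of_support_subset_isCompact h.2.1 ?_
  intro x hx
  by_contra hcon
  exact hx (grad_eq_zero_of_notMem hcon)

theorem Test.exists_bound {D : Set (E n)} {φ : E n → ℝ} (h : Test D φ) :
    ∃ C, 0 < C ∧ (∀ x, |φ x| ≤ C) ∧ ∀ x, ‖∇ φ x‖ ≤ C := by
  obtain ⟨C1, h1⟩ := h.2.1.exists_bound_of_continuous h.1.continuous
  obtain ⟨C2, h2⟩ := (hasCompactSupport_grad h).exists_bound_of_continuous (continuous_grad h.1)
  refine ⟨max C1 (max C2 1), by positivity, fun x => ?_, fun x => ?_⟩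
  · exact (h1 x).trans (le_max_left _ _)
  · exact (h2 x).trans ((le_max_left _ _).trans (le_max_right _ _))

theorem Test.memLp {μ : Measure (E n)} [IsLocallyFiniteMeasure μ] {D : Set (E n)} {φ : E n → ℝ}
    (h : Test D φ) (q : ENNReal) : MemLp φ q μ :=
  h.1.continuous.memLp_of_hasCompactSupport h.2.1

theorem Test.memLp_grad {μ : Measure (E n)} [IsLocallyFiniteMeasure μ] {D : Set (E n)}
    {φ : E n → ℝ} (h : Test D φ) (q : ENNReal) : MemLp (fun x => ∇ φ x) q μ :=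
  (continuous_grad h.1).memLp_of_hasCompactSupport (hasCompactSupport_grad h)

theorem Test.h0 {μ : Measure (E n)} [IsLocallyFiniteMeasure μ] {p : ℝ} {D : Set (E n)}
    {φ : E n → ℝ} (h : Test D φ) : H0 μ p D φ fun x => ∇ φ x := by
  refine ⟨h.memLp _, h.memLp_grad _, fun _ => φ, fun _ => h, ?_, ?_⟩
  · simp
  · simp

theorem one_le_ofReal {p : ℝ} (hp : 1 < p) : (1 : ENNReal) ≤ ENNReal.ofReal p := by
  rw [← ENNReal.ofReal_one]
  exact ENNReal.ofReal_le_ofReal hp.le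

theorem H0.add {μ : Measure (E n)} {p : ℝ} {D : Set (E n)} {u u' : E n → ℝ} {v v' : E n → E n}
    (hp : 1 < p) (h : H0 μ p D u v) (h' : H0 μ p D u' v') :
    H0 μ p D (fun x => u x + u' x) (fun x => v x + v' x) := by
  obtain ⟨h1, h2, ψ, h3, h4, h5⟩ := h
  obtain ⟨h1', h2', ψ', h3', h4', h5'⟩ := h'
  have hp1 := one_le_ofReal hp
  refine ⟨h1.add h1', h2.add h2', fun i x => ψ i x + ψ' i x, fun i => ⟨(h3 i).1.add (h3' i).1,
    (h3 i).2.1.add (h3' i).2.1, (tsupport_add _ _).trans (union_subset (h3 i).2.2 (h3' i).2.2)⟩,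
    ?_, ?_⟩
  · have h6 := h4.add h4'
    rw [add_zero] at h6
    refine tendsto_of_tendsto_of_tendsto_of_le_of_le tendsto_const_nhds h6 (fun _ => bot_le)
      fun i => ?_
    have h7 := eLpNorm_add_le (μ := μ) (p := ENNReal.ofReal p) (f := fun x => ψ i x - u x)
      (g := fun x => ψ' i x - u' x) (((h3 i).1.continuous.aestronglyMeasurable).sub h1.1)
      (((h3' i).1.continuous.aestronglyMeasurable).sub h1'.1) hp1
    refine le_trans (le_of_eq ?_) h7
    congr 1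
    funext x
    show ψ i x + ψ' i x - (u x + u' x) = (ψ i x - u x) + (ψ' i x - u' x)
    ring
  · have h6 := h5.add h5'
    rw [add_zero] at h6
    refine tendsto_of_tendsto_of_tendsto_of_le_of_le tendsto_const_nhds h6 (fun _ => bot_le)
      fun i => ?_
    have h7 := eLpNorm_add_le (μ := μ) (p := ENNReal.ofReal p) (f := fun x => ∇ (ψ i) x - v x)
      (g := fun x => ∇ (ψ' i) x - v' x)
      (((continuous_grad (h3 i).1).aestronglyMeasurable).sub h2.1)
      (((continuous_grad (h3' i).1).aestronglyMeasurable).sub h2'.1) hp1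
    refine le_trans (le_of_eq ?_) h7
    congr 1
    funext x
    have h8 : ∇ (fun y => ψ i y + ψ' i y) x = ∇ (ψ i) x + ∇ (ψ' i) x :=
      grad_add ((h3 i).1.differentiable (by simp) x) ((h3' i).1.differentiable (by simp) x)
    show ∇ (fun y => ψ i y + ψ' i y) x - (v x + v' x) = (∇ (ψ i) x - v x) + (∇ (ψ' i) x - v' x)
    rw [h8]
    abel

/-- functions in `g + H_0` are Sobolev functions -/
theorem H0.isSob {μ : Measure (E n)} [IsLocallyFiniteMeasure μ] {p : ℝ} {D : Set (E n)}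
    {u g : E n → ℝ} {v : E n → E n} (hg : Test univ g)
    (h : H0 μ p D (fun x => u x - g x) (fun x => v x - ∇ g x)) (D' : Set (E n)) :
    IsSob μ p D' u v := by
  obtain ⟨h1, h2, ψ, h3, h4, h5⟩ := h
  have hu : MemLp u (ENNReal.ofReal p) μ := by
    have h6 := h1.add (hg.memLp (μ := μ) (ENNReal.ofReal p))
    have h7 : ((fun x => u x - g x) + g) = u := by
      funext x
      simp
    rwa [h7] at h6
  have hv : MemLp v (ENNReal.ofReal p) μ := by
    have h6 := h2.add (hg.memLp_grad (μ := μ) (ENNReal.ofReal p))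
    have h7 : ((fun x => v x - ∇ g x) + fun x => ∇ g x) = v := by
      funext x
      simp
    rwa [h7] at h6
  refine ⟨hu.restrict _, hv.restrict _, fun i x => ψ i x + g x,
    fun i => ((h3 i).1.add hg.1).contDiffOn, ?_, ?_⟩
  · refine tendsto_of_tendsto_of_tendsto_of_le_of_le tendsto_const_nhds h4 (fun _ => bot_le)
      fun i => ?_
    refine (eLpNorm_mono_measure _ Measure.restrict_le_self).trans (le_of_eq ?_)
    congr 1
    funext x
    show ψ i x + g x - u x = ψ i x - (u x - g x)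
    ring
  · refine tendsto_of_tendsto_of_tendsto_of_le_of_le tendsto_const_nhds h5 (fun _ => bot_le)
      fun i => ?_
    refine (eLpNorm_mono_measure _ Measure.restrict_le_self).trans (le_of_eq ?_)
    congr 1
    funext x
    have h8 : ∇ (fun y => ψ i y + g y) x = ∇ (ψ i) x + ∇ g x :=
      grad_add ((h3 i).1.differentiable (by simp) x) (hg.1.differentiable (by simp) x)
    show ∇ (fun y => ψ i y + g y) x - v x = ∇ (ψ i) x - (v x - ∇ g x)
    rw [h8]
    abel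

/-- elements of `H_0` vanish outside `D` -/
theorem H0.ae_eq_zero {μ : Measure (E n)} {p : ℝ} {D : Set (E n)} {u : E n → ℝ} {v : E n → E n}
    (hp : 1 < p) (hD : MeasurableSet D) (h : H0 μ p D u v) :
    (∀ᵐ x ∂(μ.restrict Dᶜ), u x = 0) ∧ ∀ᵐ x ∂(μ.restrict Dᶜ), v x = 0 := by
  obtain ⟨h1, h2, ψ, h3, h4, h5⟩ := h
  have hp0 : ENNReal.ofReal p ≠ 0 := by
    have := one_le_ofReal hp
    intro h0
    rw [h0] at this
    simp at this
  have hout : ∀ i, ∀ x ∈ Dᶜ, x ∉ tsupport (ψ i) := fun i x hx hx' => hx ((h3 i).2.2 hx')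
  constructor
  · have h6 : eLpNorm u (ENNReal.ofReal p) (μ.restrict Dᶜ) = 0 := by
      refine le_antisymm (ge_of_tendsto' h4 fun i => ?_) bot_le
      have h7 : eLpNorm u (ENNReal.ofReal p) (μ.restrict Dᶜ) =
          eLpNorm (fun x => ψ i x - u x) (ENNReal.ofReal p) (μ.restrict Dᶜ) := by
        refine eLpNorm_congr_norm_ae ?_
        refine (ae_restrict_iff' hD.compl).2 (Eventually.of_forall fun x hx => ?_)
        rw [image_eq_zero_of_notMem_tsupport (hout i x hx), zero_sub, norm_neg]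
      rw [h7]
      exact eLpNorm_mono_measure _ Measure.restrict_le_self
    have h8 := (eLpNorm_eq_zero_iff (h1.1.mono_measure Measure.restrict_le_self) hp0).1 h6
    exact h8
  · have h6 : eLpNorm v (ENNReal.ofReal p) (μ.restrict Dᶜ) = 0 := by
      refine le_antisymm (ge_of_tendsto' h5 fun i => ?_) bot_le
      have h7 : eLpNorm v (ENNReal.ofReal p) (μ.restrict Dᶜ) =
          eLpNorm (fun x => ∇ (ψ i) x - v x) (ENNReal.ofReal p) (μ.restrict Dᶜ) := by
        refine eLpNorm_congr_norm_ae ?_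
        refine (ae_restrict_iff' hD.compl).2 (Eventually.of_forall fun x hx => ?_)
        show ‖v x‖ = ‖∇ (ψ i) x - v x‖
        rw [grad_eq_zero_of_notMem (hout i x hx), zero_sub, norm_neg]
      rw [h7]
      exact eLpNorm_mono_measure _ Measure.restrict_le_self
    exact (eLpNorm_eq_zero_iff (h2.1.mono_measure Measure.restrict_le_self) hp0).1 h6

end Pool.Agent.Lib.MP_abd978_an
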