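import Mathlib

/-!
# Admissible weights, the class `𝔄_p`, harmonic functions and harmonic morphisms

These are the definitions of problem MP_abd978_an.
-/

set_option autoImplicit false

open MeasureTheory Metric Set Filter Topology ContDiff
open scoped Gradient RealInnerProductSpace

namespace Pool.Agent.Lib.MP_abd978_an

/-- `n`-dimensional Euclidean space -/
abbrev E (n : ℕ) := EuclideanSpace ℝ (Fin n)

/-- The measure `dμ = w dx` of a weight. -/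
noncomputable def wm {n : ℕ} (w : E n → ℝ) : Measure (E n) :=
  volume.withDensity fun x => ENNReal.ofReal (w x)

/-- `p`-admissible weights: `w` is locally integrable, `0 < w < ∞` almost everywhere, the measure
`w dx` is doubling, weighted Sobolev gradients are unique, and the weighted Sobolev inequality (with
some exponent `κ p`, `κ > 1`) and the weighted `(1, p)`-Poincaré inequality hold on balls. -/
structure Admissible {n : ℕ} (p : ℝ) (w : E n → ℝ) : Prop where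
  locInt : LocallyIntegrable w
  pos : ∀ᵐ x : E n, 0 < w x
  doubling : ∃ C : ℝ, ∀ (x : E n) (r : ℝ), 0 < r →
    (wm w).real (ball x (2 * r)) ≤ C * (wm w).real (ball x r)
  uniq : ∀ (D : Set (E n)) (φ : ℕ → E n → ℝ) (v : E n → E n), IsOpen D →
    (∀ i, ContDiffOn ℝ ∞ (φ i) D) → MemLp v (ENNReal.ofReal p) ((wm w).restrict D) →
    Tendsto (fun i => eLpNorm (φ i) (ENNReal.ofReal p) ((wm w).restrict D)) atTop (𝓝 0) →
    Tendsto (fun i => eLpNorm (fun x => ∇ (φ i) x - v x) (ENNReal.ofReal p) ((wm w).restrict D))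
      atTop (𝓝 0) → v =ᵐ[(wm w).restrict D] 0
  sobolev : ∃ κ : ℝ, 1 < κ ∧ ∃ C : ℝ, ∀ (x : E n) (r : ℝ), 0 < r → ∀ φ : E n → ℝ,
    ContDiff ℝ ∞ φ → HasCompactSupport φ → tsupport φ ⊆ ball x r →
    (⨍ y in ball x r, |φ y| ^ (κ * p) ∂wm w) ^ (1 / (κ * p)) ≤
      C * r * (⨍ y in ball x r, ‖∇ φ y‖ ^ p ∂wm w) ^ (1 / p)
  poincare : ∃ C : ℝ, ∀ (x : E n) (r : ℝ), 0 < r → ∀ φ : E n → ℝ, ContDiff ℝ ∞ φ →
    ⨍ y in ball x r, |φ y - ⨍ z in ball x r, φ z ∂wm w| ∂wm w ≤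
      C * r * (⨍ y in ball x r, ‖∇ φ y‖ ^ p ∂wm w) ^ (1 / p)

/-- `v` is the gradient of `u` in the weighted Sobolev space `H^{1,p}(D; μ)`, the completion of the
smooth functions on the open set `D`. -/
def IsSob {n : ℕ} (μ : Measure (E n)) (p : ℝ) (D : Set (E n)) (u : E n → ℝ) (v : E n → E n) :
    Prop :=
  MemLp u (ENNReal.ofReal p) (μ.restrict D) ∧ MemLp v (ENNReal.ofReal p) (μ.restrict D) ∧
  ∃ φ : ℕ → E n → ℝ, (∀ i, ContDiffOn ℝ ∞ (φ i) D) ∧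
    Tendsto (fun i => eLpNorm (fun x => φ i x - u x) (ENNReal.ofReal p) (μ.restrict D))
      atTop (𝓝 0) ∧
    Tendsto (fun i => eLpNorm (fun x => ∇ (φ i) x - v x) (ENNReal.ofReal p) (μ.restrict D))
      atTop (𝓝 0)

/-- The structure conditions of the class `𝔄_p` for the weight `w` and the constants `α ≤ β`. -/
structure Structure {n : ℕ} (p : ℝ) (w : E n → ℝ) (α β : ℝ) (A : E n → E n → E n) : Prop where
  meas : ∀ ξ, AEMeasurable fun x => A x ξ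
  cont : ∀ᵐ x : E n, Continuous (A x)
  ell : ∀ᵐ x : E n, ∀ ξ, α * w x * ‖ξ‖ ^ p ≤ ⟪A x ξ, ξ⟫
  bdd : ∀ᵐ x : E n, ∀ ξ, ‖A x ξ‖ ≤ β * w x * ‖ξ‖ ^ (p - 1)
  mono : ∀ᵐ x : E n, ∀ ξ η, ξ ≠ η → 0 < ⟪A x ξ - A x η, ξ - η⟫
  hom : ∀ᵐ x : E n, ∀ (l : ℝ) (ξ : E n), l ≠ 0 → A x (l • ξ) = (l * |l| ^ (p - 2)) • A x ξ

/-- `A` belongs to the class `𝔄_p`, with the `p`-admissible weight `w`. -/
def ClassA {n : ℕ} (p : ℝ) (w : E n → ℝ) (A : E n → E n → E n) : Prop :=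
  Admissible p w ∧ ∃ α β : ℝ, 0 < α ∧ α ≤ β ∧ Structure p w α β A

/-- `u` is `𝒜`-harmonic in the open set `U`: it is continuous in `U`, belongs to
`H^{1,p}_loc(U; μ)`, and is a weak solution of `-div 𝒜(x, ∇u) = 0` in `U`. -/
def IsHarmonic {n : ℕ} (p : ℝ) (w : E n → ℝ) (A : E n → E n → E n) (U : Set (E n))
    (u : E n → ℝ) : Prop :=
  ContinuousOn u U ∧ ∃ v : E n → E n,
    (∀ D, IsOpen D → IsCompact (closure D) → closure D ⊆ U → IsSob (wm w) p D u v) ∧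
    ∀ φ : E n → ℝ, ContDiff ℝ ∞ φ → HasCompactSupport φ → tsupport φ ⊆ U →
      ∫ x, ⟪A x (v x), ∇ φ x⟫ = 0

/-- `f` is an `(𝒜*, 𝒜)`-harmonic morphism on `Ω`; `w*` and `w` are the weights. -/
def IsMorphism {n : ℕ} (p : ℝ) (w' : E n → ℝ) (A' : E n → E n → E n) (w : E n → ℝ)
    (A : E n → E n → E n) (Ω : Set (E n)) (f : E n → E n) : Prop :=
  ContinuousOn f Ω ∧ ∀ (V : Set (E n)) (u : E n → ℝ), IsOpen V → IsHarmonic p w A V u →
    IsHarmonic p w' A' (Ω ∩ f ⁻¹' V) (u ∘ f)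

/-- `f` is an `𝔄_p`-harmonic morphism on `Ω`. -/
def IsClassMorphism {n : ℕ} (p : ℝ) (Ω : Set (E n)) (f : E n → E n) : Prop :=
  ∃ (w' : E n → ℝ) (A' : E n → E n → E n) (w : E n → ℝ) (A : E n → E n → E n),
    ClassA p w' A' ∧ ClassA p w A ∧ IsMorphism p w' A' w A Ω f

end Pool.Agent.Lib.MP_abd978_an
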