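import Pool.Agent.Lib.MP_abd978_an.Base

/-!
# Project ABD: the statements proved in the modules

A module `XXX` proves `theorem xxx : XxxStatement` (other statements may be taken as hypotheses,
as indicated in `Blueprint.md`).
-/

set_option autoImplicit false

open MeasureTheory Metric Set Filter Topology ContDiff
open scoped Gradient RealInnerProductSpace

namespace Pool.Agent.Lib.MP_abd978_an

/-! ### Hypotheses which occur often -/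

/-- `Θ` is smooth in a neighbourhood of `[c, d]` -/
def SmoothNear (Θ : ℝ → ℝ) (c d : ℝ) : Prop :=
  ∃ O : Set ℝ, IsOpen O ∧ Icc c d ⊆ O ∧ ContDiffOn ℝ ∞ Θ O

/-- `(u, v)` is a weak solution in the open set `D` with values in `[c, d]` -/
structure BSol {n : ℕ} (μ : Measure (E n)) (p : ℝ) (a : E n → E n → E n) (D : Set (E n))
    (u : E n → ℝ) (v : E n → E n) (c d : ℝ) : Prop where
  isOpen : IsOpen D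
  sob : IsSob μ p D u v
  mem : ∀ x, u x ∈ Icc c d
  eqn : Eqn μ a D v

/-- `Φ` is smooth, positive, convex and strictly monotone (increasing or decreasing) near
`[c, d]` -/
structure Conv (Φ : ℝ → ℝ) (c d : ℝ) : Prop where
  smooth : SmoothNear Φ c d
  pos : ∀ t ∈ Icc c d, 0 < Φ t
  der : ∀ t ∈ Icc c d, deriv Φ t ≠ 0
  cvx : ∀ t ∈ Icc c d, 0 ≤ deriv (deriv Φ) t

/-! ### A. Calculus in weighted Sobolev spaces -/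

/-- CUT -/
def CutStatement : Prop := ∀ n : ℕ, ∃ C : ℝ, 0 < C ∧ ∀ (z : E n) (s t : ℝ), 0 < s → s < t →
  ∃ η : E n → ℝ, Test univ η ∧ (∀ x, η x ∈ Icc (0 : ℝ) 1) ∧ (∀ x ∈ closedBall z s, η x = 1) ∧
    tsupport η ⊆ closedBall z t ∧ ∀ x, ‖∇ η x‖ ≤ C / (t - s)

/-- CHAIN -/
def ChainStatement : Prop := ∀ (n : ℕ) (μ : Measure (E n)) (p : ℝ) (D : Set (E n)) (u : E n → ℝ)
  (v : E n → E n) (c d : ℝ) (Θ : ℝ → ℝ) (η : E n → ℝ), 1 < p → IsLocallyFiniteMeasure μ →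
  IsOpen D → IsSob μ p D u v → (∀ x, u x ∈ Icc c d) → SmoothNear Θ c d → Test D η →
  H0 μ p D (fun x => η x * Θ (u x)) fun x => Θ (u x) • ∇ η x + (η x * deriv Θ (u x)) • v x

/-- BCHAIN -/
def BchainStatement : Prop := ∀ (n : ℕ) (μ : Measure (E n)) (p : ℝ) (D : Set (E n))
  (u : E n → ℝ) (v : E n → E n) (g ζ : E n → ℝ) (H : ℝ → ℝ) (L : ℝ), 1 < p →
  IsLocallyFiniteMeasure μ → IsOpen D → Test univ g →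
  H0 μ p D (fun x => u x - g x) (fun x => v x - ∇ g x) →
  ContDiff ℝ ∞ H → (∀ t, |deriv H t| ≤ L) → ContDiff ℝ ∞ ζ → (∀ x, |ζ x| ≤ L) →
  (∀ x, ‖∇ ζ x‖ ≤ L) → HasCompactSupport (fun x => ζ x * H (g x)) →
  tsupport (fun x => ζ x * H (g x)) ⊆ D →
  H0 μ p D (fun x => ζ x * H (u x)) fun x => H (u x) • ∇ ζ x + (ζ x * deriv H (u x)) • v x

/-- INTG -/
def IntgStatement : Prop := ∀ (n : ℕ) (p : ℝ) (μ ν : Measure (E n)) (a : E n → E n → E n)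
  (α β : ℝ) (v V : E n → E n), Op p μ a α β → MemLp v (ENNReal.ofReal p) ν →
  MemLp V (ENNReal.ofReal p) ν →
  Integrable (fun x => ⟪a x (v x), V x⟫) ν ∧ Integrable (fun x => ‖v x‖ ^ (p - 1) * ‖V x‖) ν ∧
    ∫ x, ‖v x‖ ^ (p - 1) * ‖V x‖ ∂ν ≤
      (∫ x, ‖v x‖ ^ p ∂ν) ^ ((p - 1) / p) * (∫ x, ‖V x‖ ^ p ∂ν) ^ (1 / p) ∧
    |∫ x, ⟪a x (v x), V x⟫ ∂ν| ≤
      β * ((∫ x, ‖v x‖ ^ p ∂ν) ^ ((p - 1) / p) * (∫ x, ‖V x‖ ^ p ∂ν) ^ (1 / p))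

/-- PAIR -/
def PairStatement : Prop := ∀ (n : ℕ) (p : ℝ) (μ : Measure (E n)) (a : E n → E n → E n)
  (α β : ℝ) (D : Set (E n)) (v : E n → E n) (Ψ : E n → ℝ) (V : E n → E n), Op p μ a α β →
  IsOpen D → MemLp v (ENNReal.ofReal p) (μ.restrict D) → Eqn μ a D v → H0 μ p D Ψ V →
  ∫ x, ⟪a x (v x), V x⟫ ∂μ = 0

/-- SOB (1): the Sobolev inequality in `L^p` -/
def Sob1Statement : Prop := ∀ (n : ℕ) (p : ℝ) (μ : Measure (E n)), Geo p μ → ∃ C : ℝ, 0 < C ∧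
  ∀ (z : E n) (r : ℝ) (Ψ : E n → ℝ) (V : E n → E n), 0 < r → H0 μ p (ball z r) Ψ V →
    ∫ x, |Ψ x| ^ p ∂μ ≤ C * r ^ p * ∫ x, ‖V x‖ ^ p ∂μ

/-- SOB (2): the Sobolev inequality in `L^{κ p}` -/
def Sob2Statement : Prop := ∀ (n : ℕ) (p : ℝ) (μ : Measure (E n)), Geo p μ →
  ∃ κ C : ℝ, 1 < κ ∧ 0 < C ∧ ∀ (z : E n) (r : ℝ) (Ψ : E n → ℝ) (V : E n → E n) (M : ℝ), 0 < r →
    H0 μ p (ball z r) Ψ V → (∀ x, |Ψ x| ≤ M) →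
    (⨍ x in ball z r, |Ψ x| ^ (κ * p) ∂μ) ^ (1 / κ) ≤
      C * r ^ p * ⨍ x in ball z r, ‖V x‖ ^ p ∂μ

/-- POIX -/
def PoixStatement : Prop := ∀ (n : ℕ) (p : ℝ) (μ : Measure (E n)), Geo p μ → ∃ C : ℝ, 0 < C ∧
  ∀ (D : Set (E n)) (u : E n → ℝ) (v : E n → E n) (c d : ℝ) (Θ : ℝ → ℝ) (z : E n) (r : ℝ),
    IsOpen D → IsSob μ p D u v → (∀ x, u x ∈ Icc c d) → SmoothNear Θ c d → 0 < r →
    closedBall z r ⊆ D →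
    ⨍ x in ball z r, |Θ (u x) - ⨍ y in ball z r, Θ (u y) ∂μ| ∂μ ≤
      C * r * (⨍ x in ball z r, (|deriv Θ (u x)| * ‖v x‖) ^ p ∂μ) ^ (1 / p)

/-- the equation tested with `η Θ(u)` -/
def WeakStatement : Prop := ∀ (n : ℕ) (p : ℝ) (μ : Measure (E n)) (a : E n → E n → E n)
  (α β : ℝ) (D : Set (E n)) (u : E n → ℝ) (v : E n → E n) (c d : ℝ) (Θ : ℝ → ℝ)
  (η : E n → ℝ), Op p μ a α β → BSol μ p a D u v c d → SmoothNear Θ c d → Test D η →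
    ∫ x, (Θ (u x) * ⟪a x (v x), ∇ η x⟫ + η x * deriv Θ (u x) * ⟪a x (v x), v x⟫) ∂μ = 0

/-! ### B. Estimates for solutions -/

/-- CACC -/
def CaccStatement : Prop := ∀ (n : ℕ) (p : ℝ) (μ : Measure (E n)) (a : E n → E n → E n)
  (α β : ℝ), Op p μ a α β → ∃ C : ℝ, 0 < C ∧ ∀ (D : Set (E n)) (u : E n → ℝ) (v : E n → E n)
  (c d : ℝ) (Θ : ℝ → ℝ) (η : E n → ℝ), BSol μ p a D u v c d → SmoothNear Θ c d →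
  (∀ t ∈ Icc c d, 0 < deriv Θ t) → Test D η → (∀ x, η x ∈ Icc (0 : ℝ) 1) →
    ∫ x, η x ^ ⌈p⌉₊ * (deriv Θ (u x) * ‖v x‖ ^ p) ∂μ ≤
      C * ∫ x, |Θ (u x)| ^ p * deriv Θ (u x) ^ (1 - p) * ‖∇ η x‖ ^ p ∂μ

/-- CACP -/
def CacpStatement : Prop := ∀ (n : ℕ) (p : ℝ) (μ : Measure (E n)) (a : E n → E n → E n)
  (α β : ℝ), Op p μ a α β → ∃ C : ℝ, 0 < C ∧ ∀ (D : Set (E n)) (u : E n → ℝ) (v : E n → E n)
  (c d : ℝ) (Φ : ℝ → ℝ) (η : E n → ℝ) (q : ℝ), BSol μ p a D u v c d → Conv Φ c d →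
  Test D η → (∀ x, η x ∈ Icc (0 : ℝ) 1) → p ≤ q →
    ∫ x, η x ^ ⌈p⌉₊ * (Φ (u x) ^ (q - p) * |deriv Φ (u x)| ^ p * ‖v x‖ ^ p) ∂μ ≤
      C * ∫ x, Φ (u x) ^ q * ‖∇ η x‖ ^ p ∂μ

/-- MOS1 -/
def Mos1Statement : Prop := ∀ (n : ℕ) (p : ℝ) (μ : Measure (E n)) (a : E n → E n → E n)
  (α β : ℝ), Op p μ a α β → ∃ C γ : ℝ, 0 < C ∧ 0 < γ ∧ ∀ (D : Set (E n)) (u : E n → ℝ)
  (v : E n → E n) (c d : ℝ) (Φ : ℝ → ℝ) (z : E n) (s t : ℝ), BSol μ p a D u v c d →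
  Conv Φ c d → 0 < t → t / 2 ≤ s → s < t → closedBall z t ⊆ D →
    ∀ᵐ x ∂(μ.restrict (ball z s)),
      Φ (u x) ≤ C * (t / (t - s)) ^ γ * (⨍ y in ball z t, Φ (u y) ^ p ∂μ) ^ (1 / p)

/-- MOS2 -/
def Mos2Statement : Prop := ∀ (n : ℕ) (p : ℝ) (μ : Measure (E n)) (a : E n → E n → E n)
  (α β : ℝ), Op p μ a α β → ∃ C : ℝ, 0 < C ∧ ∀ (D : Set (E n)) (u : E n → ℝ)
  (v : E n → E n) (c d : ℝ) (Φ : ℝ → ℝ) (z : E n) (t : ℝ), BSol μ p a D u v c d →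
  Conv Φ c d → 0 < t → closedBall z t ⊆ D →
    ∀ᵐ x ∂(μ.restrict (ball z (t / 2))), Φ (u x) ≤ C * ⨍ y in ball z t, Φ (u y) ∂μ

/-- DENS -/
def DensStatement : Prop := ∀ (n : ℕ) (p : ℝ) (μ : Measure (E n)) (a : E n → E n → E n)
  (α β : ℝ), Op p μ a α β → ∀ θ : ℝ, 0 < θ → ∃ l : ℝ, 0 < l ∧ l ≤ 1 ∧ ∀ (D : Set (E n))
  (u : E n → ℝ) (v : E n → E n) (d k : ℝ) (z : E n) (r : ℝ), BSol μ p a D u v 0 d →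
  0 < r → closedBall z (4 * r) ⊆ D → 0 < k →
  θ * μ.real (ball z (2 * r)) ≤ μ.real {x | x ∈ ball z (2 * r) ∧ k ≤ u x} →
    ∀ᵐ x ∂(μ.restrict (ball z r)), l * k ≤ u x

/-- OSC -/
def OscStatement : Prop := ∀ (n : ℕ) (p : ℝ) (μ : Measure (E n)) (a : E n → E n → E n)
  (α β : ℝ), Op p μ a α β → ∃ c : ℝ, 0 < c ∧ c < 1 ∧ ∀ (D : Set (E n))
  (u : E n → ℝ) (v : E n → E n) (m M : ℝ) (z : E n) (r : ℝ), BSol μ p a D u v m M →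
  0 < r → closedBall z (4 * r) ⊆ D →
    ∃ m' M' : ℝ, m ≤ m' ∧ m' ≤ M' ∧ M' ≤ M ∧ M' - m' ≤ (1 - c) * (M - m) ∧
      ∀ᵐ x ∂(μ.restrict (ball z r)), u x ∈ Icc m' M'

/-- REP -/
def RepStatement : Prop := ∀ (n : ℕ) (p : ℝ) (μ : Measure (E n)) (a : E n → E n → E n)
  (α β : ℝ) (D : Set (E n)) (u : E n → ℝ) (v : E n → E n) (m M : ℝ), Op p μ a α β →
  BSol μ p a D u v m M →
    ∃ u' : E n → ℝ, ContinuousOn u' D ∧ (∀ x, u' x ∈ Icc m M) ∧ ∀ᵐ x ∂(μ.restrict D), u' x = u x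

/-- HALG -/
def HalgStatement : Prop := ∀ (n : ℕ) (p : ℝ) (μ : Measure (E n)) (a : E n → E n → E n)
  (α β : ℝ) (U : Set (E n)) (u : E n → ℝ), Op p μ a α β → IsOpen U → Harm μ p a U u →
    (∀ c : ℝ, Harm μ p a U fun x => c - u x) ∧ ∀ c : ℝ, 0 < c → Harm μ p a U fun x => c * u x

/-- DENSC -/
def DenscStatement : Prop := ∀ (n : ℕ) (p : ℝ) (μ : Measure (E n)) (a : E n → E n → E n)
  (α β : ℝ), Op p μ a α β → ∀ θ : ℝ, 0 < θ → ∃ l : ℝ, 0 < l ∧ l ≤ 1 ∧ ∀ (U : Set (E n))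
  (u : E n → ℝ) (k : ℝ) (z : E n) (r : ℝ), IsOpen U → Harm μ p a U u → 0 < r →
  closedBall z (4 * r) ⊆ U → (∀ x ∈ U, 0 ≤ u x) → 0 < k →
  θ * μ.real (ball z (2 * r)) ≤ μ.real {x | x ∈ ball z (2 * r) ∧ k ≤ u x} →
    ∀ x ∈ ball z r, l * k ≤ u x

/-- MOSC -/
def MoscStatement : Prop := ∀ (n : ℕ) (p : ℝ) (μ : Measure (E n)) (a : E n → E n → E n)
  (α β : ℝ), Op p μ a α β → ∃ C : ℝ, 0 < C ∧ ∀ (U : Set (E n)) (u : E n → ℝ) (k : ℝ)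
  (z : E n) (t : ℝ), IsOpen U → Harm μ p a U u → 0 < t → closedBall z t ⊆ U →
    ∀ x ∈ ball z (t / 2), u x - k ≤ C * ⨍ y in ball z t, max (u y - k) 0 ∂μ

/-- OSCC -/
def OsccStatement : Prop := ∀ (n : ℕ) (p : ℝ) (μ : Measure (E n)) (a : E n → E n → E n)
  (α β : ℝ), Op p μ a α β → ∃ c : ℝ, 0 < c ∧ c < 1 ∧ ∀ (U : Set (E n)) (u : E n → ℝ)
  (m M : ℝ) (z : E n) (r : ℝ), IsOpen U → Harm μ p a U u → 0 < r →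
  closedBall z (4 * r) ⊆ U → (∀ x ∈ U, u x ∈ Icc m M) →
    ∃ m' M' : ℝ, m ≤ m' ∧ M' ≤ M ∧ M' - m' ≤ (1 - c) * (M - m) ∧ ∀ x ∈ ball z r, u x ∈ Icc m' M'

/-- HARN -/
def HarnStatement : Prop := ∀ (n : ℕ) (p : ℝ) (μ : Measure (E n)) (a : E n → E n → E n)
  (α β : ℝ), Op p μ a α β → ∃ C : ℝ, 1 ≤ C ∧ ∀ (U : Set (E n)) (u : E n → ℝ)
  (z : E n) (r : ℝ), IsOpen U → Harm μ p a U u → 0 < r → closedBall z (64 * r) ⊆ U →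
  (∀ x ∈ closedBall z (64 * r), 0 ≤ u x) →
    ∀ x ∈ closedBall z r, ∀ y ∈ closedBall z r, u x ≤ C * u y

/-- HCH -/
def HchStatement : Prop := ∀ (n : ℕ) (p : ℝ) (μ : Measure (E n)) (a : E n → E n → E n)
  (α β : ℝ) (U K : Set (E n)) (z₀ : E n), Op p μ a α β → IsOpen U → IsPreconnected U →
  z₀ ∈ U → IsCompact K → K ⊆ U → ∃ C : ℝ, 1 ≤ C ∧ ∀ u : E n → ℝ, Harm μ p a U u →
  (∀ x ∈ U, 0 ≤ u x) → ∀ z ∈ K, u z ≤ C * u z₀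

/-- EQC -/
def EqcStatement : Prop := ∀ (n : ℕ) (p : ℝ) (μ : Measure (E n)) (a : E n → E n → E n)
  (α β : ℝ) (U : Set (E n)) (x₀ : E n) (M ε : ℝ), Op p μ a α β → IsOpen U → x₀ ∈ U → 0 < ε →
  ∃ δ : ℝ, 0 < δ ∧ ∀ u : E n → ℝ, Harm μ p a U u → (∀ x ∈ U, |u x| ≤ M) →
    ∀ x ∈ ball x₀ δ, |u x - u x₀| ≤ ε

/-! ### C. Geometry of spheres -/

/-- CHN -/
def ChnStatement : Prop := ∀ (n : ℕ) (δ : ℝ), 2 ≤ n → 0 < δ → ∃ N : ℕ, ∀ ξ ξ' : E n, ‖ξ‖ = 1 →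
  ‖ξ'‖ = 1 → ∃ c : ℕ → E n, c 0 = ξ ∧ c N = ξ' ∧ (∀ i, ‖c i‖ = 1) ∧
    ∀ i, dist (c i) (c (i + 1)) ≤ δ

/-- SPH -/
def SphStatement : Prop := ∀ (n : ℕ) (p : ℝ) (μ : Measure (E n)) (a : E n → E n → E n)
  (α β : ℝ), 2 ≤ n → Op p μ a α β → ∃ C : ℝ, 1 ≤ C ∧ ∀ (y : E n) (ρ : ℝ) (U : Set (E n))
  (u : E n → ℝ), 0 < ρ → IsOpen U → Harm μ p a U u →
  (∀ z, ρ / 2 < dist z y → dist z y < 2 * ρ → z ∈ U ∧ 0 ≤ u z) →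
    ∀ x ∈ sphere y ρ, ∀ x' ∈ sphere y ρ, u x ≤ C * u x'

/-- ANN -/
def AnnStatement : Prop := ∀ (n : ℕ) (y : E n) (r R : ℝ), 2 ≤ n → 0 ≤ r → r < R →
  IsConnected {z : E n | r < dist z y ∧ dist z y < R}

/-! ### D. Existence of solutions -/

/-- ALT -/
def AltStatement : Prop := ∀ (N : ℕ) (M : Fin (N + 1) → Fin (N + 1) → ℝ),
  (∀ l : Fin (N + 1) → ℝ, (∀ i, 0 ≤ l i) → 0 ≤ ∑ i, ∑ j, l i * l j * M i j) →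
    ∃ m : Fin (N + 1) → ℝ, (∀ i, 0 ≤ m i) ∧ ∑ i, m i = 1 ∧ ∀ i, 0 ≤ ∑ j, M i j * m j

/-- UCI -/
def UciStatement : Prop := ∀ (n : ℕ) (p ε : ℝ), 1 < p → 0 < ε → ∃ C : ℝ, 0 < C ∧ ∀ x y : E n,
  ‖x - y‖ ^ p ≤ ε * (‖x‖ ^ p + ‖y‖ ^ p) +
    C * ((‖x‖ ^ p + ‖y‖ ^ p) / 2 - ‖(1 / 2 : ℝ) • (x + y)‖ ^ p)

/-- intersection property of closed convex sets -/
def Fip {X : Type} [NormedAddCommGroup X] [NormedSpace ℝ X] (K : Set X) : Prop :=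
  ∀ (ι : Type) (S : ι → Set X), (∀ i, IsClosed (S i) ∧ Convex ℝ (S i)) →
    (∀ t : Finset ι, (K ∩ ⋂ i ∈ t, S i).Nonempty) → (K ∩ ⋂ i, S i).Nonempty

/-- NEST -/
def NestStatement : Prop := ∀ (n : ℕ) (p : ℝ) [Fact (1 ≤ ENNReal.ofReal p)] (μ : Measure (E n))
  (K : Set (Lp (E n) (ENNReal.ofReal p) μ)), 1 < p → IsClosed K → Convex ℝ K →
  Bornology.IsBounded K → Fip K

/-- MINTY -/
def MintyStatement : Prop := ∀ (X : Type) [NormedAddCommGroup X] [NormedSpace ℝ X] (K : Set X)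
  (F : X → X →L[ℝ] ℝ), K.Nonempty → Convex ℝ K → Fip K → (∀ x y, 0 ≤ (F x - F y) (x - y)) →
  (∀ x y, Tendsto (fun t : ℝ => F (x + t • (y - x)) (y - x)) (𝓝[>] 0) (𝓝 (F x (y - x)))) →
    ∃ x ∈ K, ∀ y ∈ K, 0 ≤ F x (y - x)

/-- OPL -/
def OplStatement : Prop := ∀ (n : ℕ) (p : ℝ) (μ : Measure (E n)) (a : E n → E n → E n)
  (α β : ℝ) [Fact (1 ≤ ENNReal.ofReal p)], Op p μ a α β →
  ∃ F : Lp (E n) (ENNReal.ofReal p) μ → Lp (E n) (ENNReal.ofReal p) μ →L[ℝ] ℝ,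
    (∀ ξ η, F ξ η = ∫ x, ⟪a x (ξ x), η x⟫ ∂μ) ∧ (∀ ξ η, 0 ≤ (F ξ - F η) (ξ - η)) ∧
    ∀ ξ η, Tendsto (fun t : ℝ => F (ξ + t • (η - ξ)) (η - ξ)) (𝓝[>] 0) (𝓝 (F ξ (η - ξ)))

/-- DIR -/
def DirStatement : Prop := ∀ (n : ℕ) (p : ℝ) (μ : Measure (E n)) (a : E n → E n → E n)
  (α β : ℝ) (D : Set (E n)) (z : E n) (R : ℝ) (g : E n → ℝ), Op p μ a α β → IsOpen D →
  D ⊆ ball z R → Test univ g → ∃ (u : E n → ℝ) (v : E n → E n),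
    H0 μ p D (fun x => u x - g x) (fun x => v x - ∇ g x) ∧ Eqn μ a D v

/-- POTX -/
def PotxStatement : Prop := ∀ (n : ℕ) (p : ℝ) (μ : Measure (E n)) (a : E n → E n → E n)
  (α β : ℝ) (y : E n) (R : ℝ) (y' : E n) (κ : ℝ), Op p μ a α β → 0 < κ →
  closedBall y' κ ⊆ ball y R → ∃ v : E n → ℝ, IsPot μ p a y R y' κ v

/-! ### E. Properties of potentials -/

/-- PHARM -/
def PharmStatement : Prop := ∀ (n : ℕ) (p : ℝ) (μ : Measure (E n)) (a : E n → E n → E n)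
  (α β : ℝ) (y : E n) (R : ℝ) (y' : E n) (κ : ℝ) (v : E n → ℝ), Op p μ a α β →
  IsPot μ p a y R y' κ v → Harm μ p a (ball y R \ closedBall y' κ) v

/-- PMIN -/
def PminStatement : Prop := ∀ (n : ℕ) (p : ℝ) (μ : Measure (E n)) (a : E n → E n → E n)
  (α β : ℝ) (y : E n) (R : ℝ) (y' : E n) (κ : ℝ) (v : E n → ℝ) (ρ m : ℝ), 1 ≤ n →
  Op p μ a α β → IsPot μ p a y R y' κ v → closedBall y' κ ⊆ ball y ρ → ρ < R →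
  (∀ z ∈ sphere y ρ, m ≤ v z) → ∀ x ∈ ball y ρ \ closedBall y' κ, m ≤ v x

/-- PMAX -/
def PmaxStatement : Prop := ∀ (n : ℕ) (p : ℝ) (μ : Measure (E n)) (a : E n → E n → E n)
  (α β : ℝ) (y : E n) (R : ℝ) (y' : E n) (κ : ℝ) (v : E n → ℝ) (ρ M : ℝ), 1 ≤ n →
  Op p μ a α β → IsPot μ p a y R y' κ v → closedBall y' κ ⊆ ball y ρ → ρ < R →
  (∀ z ∈ sphere y ρ, v z ≤ M) → ∀ x ∈ ball y R \ ball y ρ, v x ≤ M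

/-- PNZ -/
def PnzStatement : Prop := ∀ (n : ℕ) (p : ℝ) (μ : Measure (E n)) (a : E n → E n → E n)
  (α β : ℝ) (y : E n) (R : ℝ) (y' : E n) (κ : ℝ) (v : E n → ℝ) (ρ : ℝ), 1 ≤ n →
  Op p μ a α β → IsPot μ p a y R y' κ v → closedBall y' κ ⊆ ball y ρ → ρ < R →
  ∃ x ∈ ball y R \ closedBall y ρ, v x ≠ 0

/-- PNC -/
def PncStatement : Prop := ∀ (n : ℕ) (p : ℝ) (μ : Measure (E n)) (a : E n → E n → E n)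
  (α β : ℝ) (y : E n) (R : ℝ), 1 ≤ n → 0 < R → Op p μ a α β → ∃ ε : ℝ, 0 < ε ∧
  ∀ (y' : E n) (κ : ℝ) (v : E n → ℝ) (c : ℝ), IsPot μ p a y R y' κ v →
  closedBall y' κ ⊆ ball y (R / 8) → 0 < c →
    ∃ z : E n, R / 8 ≤ dist z y ∧ dist z y ≤ 7 * R / 8 ∧ ε < |c * v z - 1|

/-! ### F. The main argument -/

/-- TGT -/
def TgtStatement : Prop := ∀ (n : ℕ) (p : ℝ) (μ : Measure (E n)) (a : E n → E n → E n)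
  (α β : ℝ) (y : E n) (R ρ ε : ℝ), 2 ≤ n → 0 < ρ → ρ < R → 0 < ε → Op p μ a α β →
  ∃ δ : ℝ, 0 < δ ∧ ∀ (y' : E n) (κ : ℝ) (v : E n → ℝ), y' ≠ y → dist y' y < δ →
  κ ≤ dist y' y / 4 → IsPot μ p a y R y' κ v →
    0 < v y ∧ ∀ x ∈ ball y R, ρ ≤ dist x y → v x ≤ (1 + ε) * v y

/-- MAIN -/
def MainStatement : Prop := ∀ (n : ℕ) (p : ℝ) (μ μ' : Measure (E n)) (a a' : E n → E n → E n)
  (α β α' β' : ℝ) (Ω : Set (E n)) (f : E n → E n), 2 ≤ n → Op p μ a α β → Op p μ' a' α' β' →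
  IsOpen Ω → ContinuousOn f Ω →
  (∀ (V : Set (E n)) (u : E n → ℝ), IsOpen V → Harm μ p a V u →
    Harm μ' p a' (Ω ∩ f ⁻¹' V) (u ∘ f)) →
  ∀ x₀ ∈ Ω, (∀ U ∈ 𝓝 x₀, f '' (U ∩ Ω) ∈ 𝓝 (f x₀)) ∨ ∀ᶠ x in 𝓝 x₀, f x = f x₀

/-- NORM -/
def NormStatement : Prop := ∀ (n : ℕ) (p : ℝ) (w : E n → ℝ) (A : E n → E n → E n), 1 < p →
  ClassA p w A → ∃ (a : E n → E n → E n) (α β : ℝ), Op p (wm w) a α β ∧
    ∀ (U : Set (E n)) (u : E n → ℝ), IsHarmonic p w A U u ↔ Harm (wm w) p a U u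

/-- TOPC -/
def TopcStatement : Prop := ∀ (n : ℕ) (Ω : Set (E n)) (f : E n → E n), IsOpen Ω →
  ContinuousOn f Ω →
  (∀ x₀ ∈ Ω, (∀ U ∈ 𝓝 x₀, f '' (U ∩ Ω) ∈ 𝓝 (f x₀)) ∨ ∀ᶠ x in 𝓝 x₀, f x = f x₀) →
  (∀ G : Set (E n), IsOpen G → IsPreconnected G → G ⊆ Ω →
    IsOpen (f '' G) ∨ (f '' G).Subsingleton) ∧
  ((∀ y, interior (Ω ∩ f ⁻¹' {y}) = ∅) → ∀ U : Set (E n), IsOpen U → U ⊆ Ω → IsOpen (f '' U))

end Pool.Agent.Lib.MP_abd978_an
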