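import Pool.Agent.Lib.MP_abd978_an.Interfaces

/-!
# Project ABD: testing with `η Θ(u)`; potentials are harmonic
-/

set_option autoImplicit false

open MeasureTheory Metric Set Filter Topology ContDiff
open scoped Gradient RealInnerProductSpace

namespace Pool.Agent.Lib.MP_abd978_an

theorem weak (hC : ChainStatement) (hP : PairStatement) : WeakStatement := by
  intro n p μ a α β D u v c d Θ η hop hs hΘ hη
  have h1 := hC n μ p D u v c d Θ η hop.hp hop.lf hs.isOpen hs.sob hs.mem hΘ hη
  have h2 := hP n p μ a α β D v _ _ hop hs.isOpen hs.sob.2.1 hs.eqn h1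
  rw [← h2]
  refine integral_congr_ae (Eventually.of_forall fun x => ?_)
  show Θ (u x) * ⟪a x (v x), ∇ η x⟫ + η x * deriv Θ (u x) * ⟪a x (v x), v x⟫ =
    ⟪a x (v x), Θ (u x) • ∇ η x + (η x * deriv Θ (u x)) • v x⟫
  rw [inner_add_right, inner_smul_right, inner_smul_right]

theorem pharm : PharmStatement := by
  intro n p μ a α β y R y' κ v hop hv
  haveI := hop.lf
  obtain ⟨-, -, -, h1, g, V, h2, -, -, h3, h4⟩ := hv
  exact ⟨h1, V, fun D _ _ _ => H0.isSob (h2.mono (subset_univ _)) h3 D, h4⟩

end Pool.Agent.Lib.MP_abd978_an
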